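import Mathlib
import Pool.Agent.H.MP_3a0f08_gt.Main

set_option autoImplicit false

namespace Pool.Agent.Results.MP_d698c5_an.NoHaar

open MeasureTheory Set MulOpposite

theorem result : ∃ (G : Type) (_ : Group G) (_ : TopologicalSpace G) (_ : MeasurableSpace G),
    BorelSpace G ∧ CompactSpace G ∧ TopologicalSpace.MetrizableSpace G ∧
    (∀ a : G, Continuous fun x : G => x * a) ∧
    ∀ μ : Measure G, IsFiniteMeasure μ →
      (∀ (a : G) (E : Set G), MeasurableSet E → μ ((fun x => x * a) '' E) = μ E) → μ = 0 := by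
  obtain ⟨H, _, _, _, _, h1, a, A, B, h2, h3, ⟨b, h4⟩, h5, h6⟩ := Pool.Agent.H.MP_3a0f08_gt.noinv
  borelize Hᵐᵒᵖ
  have c : ∀ a : Hᵐᵒᵖ, Continuous fun x : Hᵐᵒᵖ => x * a := fun a =>
    continuous_op.comp ((h1 a.unop).comp continuous_unop)
  haveI : CompactSpace Hᵐᵒᵖ := opHomeomorph.compactSpace
  refine ⟨Hᵐᵒᵖ, inferInstance, inferInstance, inferInstance, inferInstance, inferInstance,
    opHomeomorph.symm.isEmbedding.metrizableSpace, c, fun μ _ hμ => ?_⟩
  have oA := h2.preimage (continuous_unop (M := H))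
  have oB := h3.preimage (continuous_unop (M := H))
  have h7 : μ (unop ⁻¹' A) ≤ μ (unop ⁻¹' A \ unop ⁻¹' B) := by
    rw [← hμ (op a) _ oA.measurableSet]
    refine measure_mono ?_
    rintro _ ⟨x, hx, rfl⟩
    exact h6 ⟨x.unop, hx, rfl⟩
  have h8 : μ (unop ⁻¹' B) = 0 := by
    have := measure_inter_add_diff (μ := μ) (unop ⁻¹' A) oB.measurableSet
    rw [inter_eq_right.2 (preimage_mono h5)] at this
    refine nonpos_iff_eq_zero.1 ((ENNReal.add_le_add_iff_right
      (measure_ne_top μ (unop ⁻¹' A \ unop ⁻¹' B))).1 ?_)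
    rwa [this, zero_add]
  refine Measure.measure_univ_eq_zero.1 (isCompact_univ.measure_zero_of_nhdsWithin fun x _ =>
    ⟨(fun y => y * ((op b)⁻¹ * x)) '' (unop ⁻¹' B), mem_nhdsWithin_of_mem_nhds (IsOpen.mem_nhds ?_
      ⟨op b, h4, by simp⟩), by rw [hμ _ _ oB.measurableSet, h8]⟩)
  rw [image_mul_right]
  exact oB.preimage (c _)

end Pool.Agent.Results.MP_d698c5_an.NoHaar
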